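import Mathlib

/-!
# MP_a721b7_an: relations represented by a point function inside an interval

For an arbitrary binary relation `R` on an arbitrary set `X` we prove: there are `f g h : X → ℝ`
with `R x y ↔ f x < g y < h x` if and only if

* `R` contains no reversal (`NoReversal`): no finite configuration of elements in which a chain of
  elementary forcing steps `(a, b) → (c, b)` or `(b, a) → (b, c)` (allowed when some set `R(x)`
  contains `a` and `c` but not `b`) leads from a pair `(a, b)`, `a ≠ b`, to `(b, a)`; and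
* `CountableBase R`: there is a countable set `Z ⊆ X` such that whenever `x R y` there are
  `z, z' ∈ Z` with `y ∈ R(z) ∩ R(z') ⊆ R(x)`.

Proof outline.  Finite part: for a finite family of subsets of a finite set, absence of reversals
gives a linear order in which every member is convex (`finite_order`); the proof decomposes the set
along modules.  An ultrafilter on the finite subsets of `X` then gives a strict linear order on `X`
in which every `R(x)` is convex (`exists_order`).  The countable base provides countably many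
initial segments of that order, and `g w = ∑ 2^{-n} [w ∉ I_n]` over those segments has enough
jumps for `f x = sup g` below `R(x)` and `h x = inf g` above `R(x)` to do the job.  Necessity of
the countable base is obtained from countable subsets which are order-dense from the right.
-/

open Set Relation

namespace Pool.Agent.Results.MP_a721b7_an.Characterization

variable {X : Type*}

/-! ### Finite families: the forcing relation and convex orders -/

/-- An elementary forcing step inside `F`: `(a, b) → (c, b)` or `(b, a) → (b, c)`, where some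
member of the family contains `a` and `c` but not `b`. -/
def St (𝓡 : Set (Set X)) (F : Set X) (p q : X × X) : Prop :=
  p.1 ∈ F ∧ p.2 ∈ F ∧ q.1 ∈ F ∧ q.2 ∈ F ∧ ∃ S ∈ 𝓡,
    (p.1 ∈ S ∧ q.1 ∈ S ∧ p.2 ∉ S ∧ q.2 = p.2) ∨ (p.2 ∈ S ∧ q.2 ∈ S ∧ p.1 ∉ S ∧ q.1 = p.1)

variable {𝓡 : Set (Set X)} {F : Set X}

theorem St.symm {p q : X × X} (h : St 𝓡 F p q) : St 𝓡 F q p := by
  obtain ⟨h1, h2, h3, h4, S, hS, h5⟩ := h
  refine ⟨h3, h4, h1, h2, S, hS, ?_⟩
  rcases h5 with ⟨a1, a2, a3, a4⟩ | ⟨a1, a2, a3, a4⟩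
  · exact Or.inl ⟨a2, a1, by rw [a4]; exact a3, a4.symm⟩
  · exact Or.inr ⟨a2, a1, by rw [a4]; exact a3, a4.symm⟩

theorem St.swap {p q : X × X} (h : St 𝓡 F p q) : St 𝓡 F p.swap q.swap := by
  obtain ⟨h1, h2, h3, h4, S, hS, h5⟩ := h
  exact ⟨h2, h1, h4, h3, S, hS, h5.symm⟩

theorem St.ne {p q : X × X} (h : St 𝓡 F p q) : p.1 ≠ p.2 := by
  obtain ⟨h1, h2, h3, h4, S, hS, h5⟩ := h
  rcases h5 with ⟨a1, a2, a3, a4⟩ | ⟨a1, a2, a3, a4⟩
  · intro e; rw [e] at a1; exact a3 a1
  · intro e; rw [e] at a3; exact a3 a1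

theorem St.mono {G : Set X} (hFG : F ⊆ G) {p q : X × X} (h : St 𝓡 F p q) : St 𝓡 G p q := by
  obtain ⟨h1, h2, h3, h4, h5⟩ := h
  exact ⟨hFG h1, hFG h2, hFG h3, hFG h4, h5⟩

/-- forcing -/
abbrev Fo (𝓡 : Set (Set X)) (F : Set X) : X × X → X × X → Prop := ReflTransGen (St 𝓡 F)

theorem Fo.symm {p q : X × X} (h : Fo 𝓡 F p q) : Fo 𝓡 F q p := by
  induction h with
  | refl => exact ReflTransGen.refl
  | tail _ h2 ih => exact ReflTransGen.head h2.symm ih

theorem Fo.swap {p q : X × X} (h : Fo 𝓡 F p q) : Fo 𝓡 F p.swap q.swap := by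
  induction h with
  | refl => exact ReflTransGen.refl
  | tail _ h2 ih => exact ReflTransGen.tail ih h2.swap

theorem Fo.mono {G : Set X} (hFG : F ⊆ G) {p q : X × X} (h : Fo 𝓡 F p q) : Fo 𝓡 G p q := by
  induction h with
  | refl => exact ReflTransGen.refl
  | tail _ h2 ih => exact ReflTransGen.tail ih (h2.mono hFG)

theorem Fo.ne {p q : X × X} (h : Fo 𝓡 F p q) (hp : p.1 ≠ p.2) : q.1 ≠ q.2 := by
  induction h with
  | refl => exact hp
  | tail _ h2 _ => exact h2.symm.ne

theorem Fo.mem {p q : X × X} (h : Fo 𝓡 F p q) (hp : p.1 ∈ F ∧ p.2 ∈ F) : q.1 ∈ F ∧ q.2 ∈ F := by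
  induction h with
  | refl => exact hp
  | tail _ h2 _ => exact ⟨h2.2.2.1, h2.2.2.2.1⟩

/-- the elements involved in the class of a pair -/
def Vs (𝓡 : Set (Set X)) (F : Set X) (p : X × X) : Set X :=
  {v | ∃ q, Fo 𝓡 F p q ∧ (v = q.1 ∨ v = q.2)}

/-- `lt` is a strict linear order on `F` for which the traces of all members of `𝓡` are convex. -/
structure IsOrd (𝓡 : Set (Set X)) (F : Set X) (lt : X → X → Prop) : Prop where
  irrefl : ∀ x ∈ F, ¬ lt x x
  trans : ∀ x ∈ F, ∀ y ∈ F, ∀ z ∈ F, lt x y → lt y z → lt x z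
  total : ∀ x ∈ F, ∀ y ∈ F, x ≠ y → lt x y ∨ lt y x
  convex : ∀ S ∈ 𝓡, ∀ x ∈ F, ∀ y ∈ F, ∀ z ∈ F, lt x y → lt y z → x ∈ S → z ∈ S → y ∈ S

/-- triangle lemma -/
theorem triangle {p : X × X} {x y z : X}
    (hyz : Fo 𝓡 F p (y, z)) (hx : x ∈ Vs 𝓡 F p) (hxF : x ∈ F) (hxy : x ≠ y) (hxz : x ≠ z) :
    Fo 𝓡 F p (x, z) ∨ Fo 𝓡 F p (y, x) := by
  by_contra hcon
  rw [not_or] at hcon
  obtain ⟨n1, n2⟩ := hcon
  -- along the class of `(y, z)`, the pairs with `x` stay in the same classes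
  have key : ∀ q, Fo 𝓡 F (y, z) q → x ≠ q.1 ∧ x ≠ q.2 ∧ Fo 𝓡 F (x, y) (x, q.1) ∧
      Fo 𝓡 F (x, z) (x, q.2) := by
    intro q hq
    induction hq with
    | refl => exact ⟨hxy, hxz, ReflTransGen.refl, ReflTransGen.refl⟩
    | @tail q q' hq1 hq2 ih =>
      obtain ⟨i1, i2, i3, i4⟩ := ih
      obtain ⟨m1, m2, m3, m4, S, hS, hst⟩ := hq2
      have hpq : Fo 𝓡 F p q := hyz.trans hq1
      rcases hst with ⟨a1, a2, a3, a4⟩ | ⟨a1, a2, a3, a4⟩
      · have hxS : x ∉ S := by
          intro hxS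
          -- then `(x, q.2)` is in the class of `p`
          have s1 : St 𝓡 F q (x, q.2) := ⟨m1, m2, hxF, m2, S, hS, Or.inl ⟨a1, hxS, a3, rfl⟩⟩
          have s2 : Fo 𝓡 F p (x, q.2) := hpq.tail s1
          exact n1 (s2.trans i4.symm)
        refine ⟨?_, ?_, ?_, ?_⟩
        · intro e; exact hxS (e ▸ a2)
        · rw [a4]; exact i2
        · exact i3.tail ⟨hxF, m1, hxF, m3, S, hS, Or.inr ⟨a1, a2, hxS, rfl⟩⟩
        · rw [a4]; exact i4
      · have hxS : x ∉ S := by
          intro hxS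
          have s1 : St 𝓡 F q (q.1, x) := ⟨m1, m2, m1, hxF, S, hS, Or.inr ⟨a1, hxS, a3, rfl⟩⟩
          have s2 : Fo 𝓡 F p (q.1, x) := hpq.tail s1
          have s3 : Fo 𝓡 F (q.1, x) (y, x) := i3.symm.swap
          exact n2 (s2.trans s3)
        refine ⟨?_, ?_, ?_, ?_⟩
        · rw [a4]; exact i1
        · intro e; exact hxS (e ▸ a2)
        · rw [a4]; exact i3
        · exact i4.tail ⟨hxF, m2, hxF, m4, S, hS, Or.inr ⟨a1, a2, hxS, rfl⟩⟩
  obtain ⟨q, hq, hv⟩ := hx
  have hq' : Fo 𝓡 F (y, z) q := hyz.symm.trans hq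
  obtain ⟨k1, k2, -, -⟩ := key q hq'
  rcases hv with hv | hv
  · exact k1 hv
  · exact k2 hv

/-- case where every class involves all of `F` -/
theorem isOrd_of_full (hrev : ∀ a ∈ F, ∀ b ∈ F, a ≠ b → ¬ Fo 𝓡 F (a, b) (b, a))
    (hfull : ∀ a ∈ F, ∀ b ∈ F, a ≠ b → F ⊆ Vs 𝓡 F (a, b)) {a b : X} (ha : a ∈ F) (hb : b ∈ F)
    (hab : a ≠ b) : IsOrd 𝓡 F (fun x y => Fo 𝓡 F (a, b) (x, y)) := by
  have hasym : ∀ x y, Fo 𝓡 F (a, b) (x, y) → ¬ Fo 𝓡 F (a, b) (y, x) := by
    intro x y h1 h2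
    have hm := h1.mem ⟨ha, hb⟩
    exact hrev x hm.1 y hm.2 (h1.ne hab) (h1.symm.trans h2)
  have htri : ∀ x ∈ F, ∀ y z, Fo 𝓡 F (a, b) (y, z) → x ≠ y → x ≠ z →
      Fo 𝓡 F (a, b) (x, z) ∨ Fo 𝓡 F (a, b) (y, x) := by
    intro x hx y z h h1 h2
    exact triangle (p := (a, b)) h (hfull a ha b hb hab hx) hx h1 h2
  constructor
  · intro x _ h
    exact h.ne hab rfl
  · intro x hx y hy z hz h1 h2
    have hzx : z ≠ x := by
      rintro rfl
      exact hasym _ _ h1 h2
    have hzy : z ≠ y := fun e => h2.ne hab e.symm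
    rcases htri z hz x y h1 hzx hzy with h3 | h3
    · exact absurd h3 (hasym _ _ h2)
    · exact h3
  · intro x hx y hy hxy
    by_contra hcon
    rw [not_or] at hcon
    obtain ⟨n1, n2⟩ := hcon
    have key : ∀ q, Fo 𝓡 F (x, y) q →
        (¬ Fo 𝓡 F (a, b) (x, q.1) ∧ ¬ Fo 𝓡 F (a, b) (q.1, x)) ∧
        (¬ Fo 𝓡 F (a, b) (x, q.2) ∧ ¬ Fo 𝓡 F (a, b) (q.2, x)) := by
      intro q hq
      have hself : ¬ Fo 𝓡 F (a, b) (x, x) := fun h => h.ne hab rfl
      induction hq with
      | refl => exact ⟨⟨hself, hself⟩, n1, n2⟩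
      | @tail q q' hq1 hq2 ih =>
        obtain ⟨⟨i1, i2⟩, i3, i4⟩ := ih
        have hq1' : Fo 𝓡 F (x, y) q' := hq1.tail hq2
        have hne : q'.1 ≠ q'.2 := hq2.symm.ne
        -- `q'` is not in the class of `(a,b)` nor its reverse
        have c1 : ¬ Fo 𝓡 F (a, b) (q'.1, q'.2) := fun h => n1 (h.trans hq1'.symm)
        have c2 : ¬ Fo 𝓡 F (a, b) (q'.2, q'.1) := fun h => n2 (h.trans hq1'.symm.swap)
        obtain ⟨m1, m2, m3, m4, S, hS, hst⟩ := hq2
        have trans_inc : ∀ u v, u ∈ F → v ∈ F → u ≠ v →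
            (¬ Fo 𝓡 F (a, b) (x, v) ∧ ¬ Fo 𝓡 F (a, b) (v, x)) →
            ¬ Fo 𝓡 F (a, b) (u, v) → ¬ Fo 𝓡 F (a, b) (v, u) →
            (¬ Fo 𝓡 F (a, b) (x, u) ∧ ¬ Fo 𝓡 F (a, b) (u, x)) := by
          intro u v hu hv huv hxv h1 h2
          by_cases hvx : v = x
          · subst hvx
            exact ⟨h2, h1⟩
          · constructor
            · intro h
              rcases htri v hv x u h hvx huv.symm with h3 | h3
              · exact h2 h3
              · exact hxv.1 h3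
            · intro h
              rcases htri v hv u x h huv.symm hvx with h3 | h3
              · exact hxv.2 h3
              · exact h1 h3
        rcases hst with ⟨a1, a2, a3, a4⟩ | ⟨a1, a2, a3, a4⟩
        · have e2 : (¬ Fo 𝓡 F (a, b) (x, q'.2) ∧ ¬ Fo 𝓡 F (a, b) (q'.2, x)) := by
            rw [a4]; exact ⟨i3, i4⟩
          exact ⟨trans_inc q'.1 q'.2 m3 m4 hne e2 c1 c2, e2⟩
        · have e1 : (¬ Fo 𝓡 F (a, b) (x, q'.1) ∧ ¬ Fo 𝓡 F (a, b) (q'.1, x)) := by
            rw [a4]; exact ⟨i1, i2⟩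
          exact ⟨e1, trans_inc q'.2 q'.1 m4 m3 hne.symm e1 c2 c1⟩
    have inc : ∀ v ∈ F, ¬ Fo 𝓡 F (a, b) (x, v) ∧ ¬ Fo 𝓡 F (a, b) (v, x) := by
      intro v hv
      obtain ⟨q, hq, hvq⟩ := hfull x hx y hy hxy hv
      obtain ⟨k1, k2⟩ := key q hq
      rcases hvq with rfl | rfl
      · exact k1
      · exact k2
    have hab' : Fo 𝓡 F (a, b) (a, b) := ReflTransGen.refl
    by_cases hxa : x = a
    · exact (inc b hb).1 (hxa ▸ hab')
    · by_cases hxb : x = b
      · exact (inc a ha).2 (hxb ▸ hab')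
      · rcases htri x hx a b hab' hxa hxb with h | h
        · exact (inc b hb).1 h
        · exact (inc a ha).2 h
  · intro S hS x hx y hy z hz h1 h2 hxS hzS
    by_contra hyS
    have s : St 𝓡 F (x, y) (z, y) := ⟨hx, hy, hz, hy, S, hS, Or.inl ⟨hxS, hzS, hyS, rfl⟩⟩
    exact hasym _ _ h2 (h1.tail s)

/-- every member of the family is either contained in a class support (within `F`), or contains
it, or is disjoint from it -/
theorem module {a b : X} {S : Set X} (hS : S ∈ 𝓡) (ha : a ∈ F) (hb : b ∈ F) :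
    (S ∩ F ⊆ Vs 𝓡 F (a, b)) ∨ (Vs 𝓡 F (a, b) ⊆ S) ∨ (∀ v ∈ Vs 𝓡 F (a, b), v ∉ S) := by
  by_cases h : ∃ q, Fo 𝓡 F (a, b) q ∧ ((q.1 ∈ S ∧ q.2 ∉ S) ∨ (q.2 ∈ S ∧ q.1 ∉ S))
  · left
    obtain ⟨q, hq, hspl⟩ := h
    obtain ⟨m1, m2⟩ := hq.mem ⟨ha, hb⟩
    rintro c ⟨hcS, hcF⟩
    rcases hspl with ⟨h1, h2⟩ | ⟨h1, h2⟩
    · exact ⟨(c, q.2), hq.tail ⟨m1, m2, hcF, m2, S, hS, Or.inl ⟨h1, hcS, h2, rfl⟩⟩, Or.inl rfl⟩
    · exact ⟨(q.1, c), hq.tail ⟨m1, m2, m1, hcF, S, hS, Or.inr ⟨h1, hcS, h2, rfl⟩⟩, Or.inr rfl⟩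
  · right
    push Not at h
    have key : ∀ q, Fo 𝓡 F (a, b) q → ((q.1 ∈ S ↔ a ∈ S) ∧ (q.2 ∈ S ↔ a ∈ S)) := by
      intro q hq
      induction hq with
      | refl =>
        obtain ⟨h1, h2⟩ := h (a, b) ReflTransGen.refl
        exact ⟨Iff.rfl, ⟨h2, h1⟩⟩
      | @tail q q' hq1 hq2 ih =>
        obtain ⟨i1, i2⟩ := ih
        obtain ⟨h1, h2⟩ := h q' (hq1.tail hq2)
        have e : q'.1 ∈ S ↔ q'.2 ∈ S := ⟨h1, h2⟩
        obtain ⟨-, -, -, -, T, -, hst⟩ := hq2
        rcases hst with ⟨-, -, -, a4⟩ | ⟨-, -, -, a4⟩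
        · rw [e, a4]; exact ⟨i2, i2⟩
        · rw [← e, a4]; exact ⟨i1, i1⟩
    by_cases haS : a ∈ S
    · left
      rintro v ⟨q, hq, rfl | rfl⟩
      · exact (key q hq).1.2 haS
      · exact (key q hq).2.2 haS
    · right
      rintro v ⟨q, hq, rfl | rfl⟩
      · exact fun hv => haS ((key q hq).1.1 hv)
      · exact fun hv => haS ((key q hq).2.1 hv)

theorem finite_order (𝓡 : Set (Set X)) : ∀ (n : ℕ) (F : Finset X), F.card = n →
    (∀ a ∈ (F : Set X), ∀ b ∈ (F : Set X), a ≠ b → ¬ Fo 𝓡 (F : Set X) (a, b) (b, a)) →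
    ∃ lt : X → X → Prop, IsOrd 𝓡 (F : Set X) lt := by
  classical
  intro n
  induction n using Nat.strong_induction_on with
  | _ n ih =>
  intro F hn hrev
  by_cases hcard : ∃ a ∈ (F : Set X), ∃ b ∈ (F : Set X), a ≠ b
  swap
  · push Not at hcard
    refine ⟨fun _ _ => False, ?_, ?_, ?_, ?_⟩
    · intro x _ h; exact h
    · intro x _ y _ z _ h; exact h.elim
    · intro x hx y hy hxy; exact absurd (hcard x hx y hy) hxy
    · intro S _ x _ y _ z _ h; exact h.elim
  by_cases hfull : ∀ a ∈ (F : Set X), ∀ b ∈ (F : Set X), a ≠ b →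
      (F : Set X) ⊆ Vs 𝓡 (F : Set X) (a, b)
  · obtain ⟨a, ha, b, hb, hab⟩ := hcard
    exact ⟨_, isOrd_of_full hrev hfull ha hb hab⟩
  push Not at hfull
  obtain ⟨a, ha, b, hb, hab, hnot⟩ := hfull
  set V : Set X := Vs 𝓡 (F : Set X) (a, b) with hV
  have hVF : V ⊆ (F : Set X) := by
    rintro v ⟨q, hq, rfl | rfl⟩
    · exact (hq.mem ⟨ha, hb⟩).1
    · exact (hq.mem ⟨ha, hb⟩).2
  have haV : a ∈ V := ⟨(a, b), ReflTransGen.refl, Or.inl rfl⟩
  have hbV : b ∈ V := ⟨(a, b), ReflTransGen.refl, Or.inr rfl⟩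
  obtain ⟨w, hwF, hwV⟩ := Set.not_subset.1 hnot
  let F1 : Finset X := F.filter (fun v => v ∈ V)
  let F2 : Finset X := F.filter (fun v => v ∉ V ∨ v = a)
  have hF1 : F1 ⊂ F := by
    refine ⟨Finset.filter_subset _ _, fun h => ?_⟩
    exact hwV (Finset.mem_filter.1 (h hwF)).2
  have hF2 : F2 ⊂ F := by
    refine ⟨Finset.filter_subset _ _, fun h => ?_⟩
    rcases (Finset.mem_filter.1 (h hb)).2 with h1 | h1
    · exact h1 hbV
    · exact hab h1.symm
  have hc1 := Finset.card_lt_card hF1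
  have hc2 := Finset.card_lt_card hF2
  have hs1 : (F1 : Set X) ⊆ (F : Set X) := Finset.coe_subset.2 hF1.1
  have hs2 : (F2 : Set X) ⊆ (F : Set X) := Finset.coe_subset.2 hF2.1
  obtain ⟨lt1, o1⟩ := ih F1.card (hn ▸ hc1) F1 rfl
    (fun x hx y hy hxy h => hrev x (hs1 hx) y (hs1 hy) hxy (h.mono hs1))
  obtain ⟨lt2, o2⟩ := ih F2.card (hn ▸ hc2) F2 rfl
    (fun x hx y hy hxy h => hrev x (hs2 hx) y (hs2 hy) hxy (h.mono hs2))
  let π : X → X := fun x => if x ∈ V then a else x
  have hπ1 : ∀ x, x ∈ V → π x = a := fun x hx => if_pos hx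
  have hπ2 : ∀ x, x ∉ V → π x = x := fun x hx => if_neg hx
  have mem1 : ∀ x, x ∈ (F : Set X) → x ∈ V → x ∈ (F1 : Set X) := by
    intro x hx hxV
    exact Finset.mem_coe.2 (Finset.mem_filter.2 ⟨hx, hxV⟩)
  have mem2 : ∀ x, x ∈ (F : Set X) → π x ∈ (F2 : Set X) := by
    intro x hx
    by_cases hxV : x ∈ V
    · rw [hπ1 x hxV]
      exact Finset.mem_coe.2 (Finset.mem_filter.2 ⟨ha, Or.inr rfl⟩)
    · rw [hπ2 x hxV]
      exact Finset.mem_coe.2 (Finset.mem_filter.2 ⟨hx, Or.inl hxV⟩)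
  let lt : X → X → Prop := fun x y =>
    (x ∈ V ∧ y ∈ V ∧ lt1 x y) ∨ (¬ (x ∈ V ∧ y ∈ V) ∧ lt2 (π x) (π y))
  refine ⟨lt, ?_, ?_, ?_, ?_⟩
  · rintro x hx (⟨h1, -, h2⟩ | ⟨-, h2⟩)
    · exact o1.irrefl x (mem1 x hx h1) h2
    · exact o2.irrefl _ (mem2 x hx) h2
  · rintro x hx y hy z hz (⟨h1, h2, h3⟩ | ⟨h1, h3⟩) (⟨g1, g2, g3⟩ | ⟨g1, g3⟩)
    · exact Or.inl ⟨h1, g2, o1.trans x (mem1 x hx h1) y (mem1 y hy h2) z (mem1 z hz g2) h3 g3⟩
    · right
      have hz' : z ∉ V := fun hz' => g1 ⟨h2, hz'⟩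
      refine ⟨fun h => hz' h.2, ?_⟩
      rw [hπ1 x h1]
      rw [hπ1 y h2] at g3
      exact g3
    · right
      have hx' : x ∉ V := fun hx' => h1 ⟨hx', g1⟩
      refine ⟨fun h => hx' h.1, ?_⟩
      rw [hπ1 z g2]
      rw [hπ1 y g1] at h3
      exact h3
    · have h4 := o2.trans _ (mem2 x hx) _ (mem2 y hy) _ (mem2 z hz) h3 g3
      right
      refine ⟨?_, h4⟩
      rintro ⟨hx', hz'⟩
      rw [hπ1 x hx', hπ1 z hz'] at h4
      exact o2.irrefl a (by have := mem2 a ha; rwa [hπ1 a haV] at this) h4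
  · intro x hx y hy hxy
    by_cases hV' : x ∈ V ∧ y ∈ V
    · rcases o1.total x (mem1 x hx hV'.1) y (mem1 y hy hV'.2) hxy with h | h
      · exact Or.inl (Or.inl ⟨hV'.1, hV'.2, h⟩)
      · exact Or.inr (Or.inl ⟨hV'.2, hV'.1, h⟩)
    · have hne : π x ≠ π y := by
        intro e
        by_cases hx' : x ∈ V
        · have hy' : y ∉ V := fun hy' => hV' ⟨hx', hy'⟩
          rw [hπ1 x hx', hπ2 y hy'] at e
          exact hy' (e ▸ haV)
        · rw [hπ2 x hx'] at e
          by_cases hy' : y ∈ V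
          · rw [hπ1 y hy'] at e
            exact hx' (e ▸ haV)
          · rw [hπ2 y hy'] at e
            exact hxy e
      rcases o2.total _ (mem2 x hx) _ (mem2 y hy) hne with h | h
      · exact Or.inl (Or.inr ⟨hV', h⟩)
      · exact Or.inr (Or.inr ⟨fun h' => hV' ⟨h'.2, h'.1⟩, h⟩)
  · intro S hS x hx y hy z hz hxy hyz hxS hzS
    have haa : a ∈ (F2 : Set X) := by have := mem2 a ha; rwa [hπ1 a haV] at this
    rcases module (F := (F : Set X)) hS ha hb with hm | hm | hm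
    · have hxV : x ∈ V := hm ⟨hxS, hx⟩
      have hzV : z ∈ V := hm ⟨hzS, hz⟩
      by_cases hyV : y ∈ V
      · rcases hxy with ⟨-, -, h1⟩ | ⟨h1, -⟩
        · rcases hyz with ⟨-, -, h2⟩ | ⟨h2, -⟩
          · exact o1.convex S hS x (mem1 x hx hxV) y (mem1 y hy hyV) z (mem1 z hz hzV) h1 h2 hxS hzS
          · exact absurd ⟨hyV, hzV⟩ h2
        · exact absurd ⟨hxV, hyV⟩ h1
      · rcases hxy with ⟨-, h1, -⟩ | ⟨-, h1⟩
        · exact absurd h1 hyV
        · rcases hyz with ⟨h2, -, -⟩ | ⟨-, h2⟩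
          · exact absurd h2 hyV
          · rw [hπ1 x hxV] at h1
            rw [hπ1 z hzV] at h2
            exact absurd (o2.trans a haa _ (mem2 y hy) a haa h1 h2) (o2.irrefl a haa)
    · by_cases hyV : y ∈ V
      · exact hm hyV
      · rcases hxy with ⟨-, h1, -⟩ | ⟨-, h1⟩
        · exact absurd h1 hyV
        · rcases hyz with ⟨h2, -, -⟩ | ⟨-, h2⟩
          · exact absurd h2 hyV
          · have hS1 : ∀ u, u ∈ S → π u ∈ S := by
              intro u hu
              by_cases huV : u ∈ V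
              · rw [hπ1 u huV]; exact hm haV
              · rw [hπ2 u huV]; exact hu
            have := o2.convex S hS _ (mem2 x hx) _ (mem2 y hy) _ (mem2 z hz) h1 h2
              (hS1 x hxS) (hS1 z hzS)
            rwa [hπ2 y hyV] at this
    · have hxV : x ∉ V := fun h => hm x h hxS
      have hzV : z ∉ V := fun h => hm z h hzS
      rcases hxy with ⟨h1, -, -⟩ | ⟨-, h1⟩
      · exact absurd h1 hxV
      · rcases hyz with ⟨-, h2, -⟩ | ⟨-, h2⟩
        · exact absurd h2 hzV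
        · rw [hπ2 x hxV] at h1
          rw [hπ2 z hzV] at h2
          have m1 := mem2 x hx
          have m3 := mem2 z hz
          rw [hπ2 x hxV] at m1
          rw [hπ2 z hzV] at m3
          have := o2.convex S hS x m1 _ (mem2 y hy) z m3 h1 h2 hxS hzS
          by_cases hyV : y ∈ V
          · rw [hπ1 y hyV] at this
            exact absurd this (hm a haV)
          · rwa [hπ2 y hyV] at this

/-- infinite families, by compactness -/
theorem exists_order (𝓡 : Set (Set X)) (hrev : ∀ a b, a ≠ b → ¬ Fo 𝓡 univ (a, b) (b, a)) :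
    ∃ lt : X → X → Prop, IsOrd 𝓡 univ lt := by
  classical
  have h : ∀ F : Finset X, ∃ lt : X → X → Prop, IsOrd 𝓡 (F : Set X) lt := fun F =>
    finite_order 𝓡 F.card F rfl
      (fun a _ b _ hab hf => hrev a b hab (hf.mono (Set.subset_univ _)))
  choose L hL using h
  let U : Ultrafilter (Finset X) := Ultrafilter.of Filter.atTop
  have hU : ∀ s : Finset X, ∀ᶠ F in (U : Filter (Finset X)), s ⊆ F := by
    intro s
    exact (Ultrafilter.of_le (Filter.atTop : Filter (Finset X))) (Filter.eventually_ge_atTop s)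
  have hmem : ∀ x : X, ∀ᶠ (F : Finset X) in (U : Filter (Finset X)), x ∈ (F : Set X) := by
    intro x
    filter_upwards [hU {x}] with F hF
    exact hF (Finset.mem_singleton_self x)
  refine ⟨fun x y => ∀ᶠ F in (U : Filter (Finset X)), L F x y, ?_, ?_, ?_, ?_⟩
  · intro x _ hx
    have : ∀ᶠ F in (U : Filter (Finset X)), False := by
      filter_upwards [hx, hmem x] with F h1 h2
      exact (hL F).irrefl x h2 h1
    rw [Filter.eventually_false_iff_eq_bot] at this
    exact U.neBot.ne this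
  · intro x _ y _ z _ h1 h2
    filter_upwards [h1, h2, hmem x, hmem y, hmem z] with F g1 g2 m1 m2 m3
    exact (hL F).trans x m1 y m2 z m3 g1 g2
  · intro x _ y _ hxy
    rw [← Ultrafilter.eventually_or]
    filter_upwards [hmem x, hmem y] with F m1 m2
    exact (hL F).total x m1 y m2 hxy
  · intro S hS x _ y _ z _ h1 h2 hxS hzS
    have : ∀ᶠ F in (U : Filter (Finset X)), y ∈ S := by
      filter_upwards [h1, h2, hmem x, hmem y, hmem z] with F g1 g2 m1 m2 m3
      exact (hL F).convex S hS x m1 y m2 z m3 g1 g2 hxS hzS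
    by_contra hy
    have : ∀ᶠ F in (U : Filter (Finset X)), False := by
      filter_upwards [this] with F h
      exact hy h
    rw [Filter.eventually_false_iff_eq_bot] at this
    exact U.neBot.ne this

/-! ### Real-valued lemmas -/

/-- A countable subset that is dense from the right for the values of a function
(hereditary separability of the Sorgenfrey line). -/
theorem exists_countable_right (S : Set X) (f : X → ℝ) :
    ∃ D ⊆ S, D.Countable ∧ ∀ x ∈ S, ∀ t, f x < t → ∃ z ∈ D, f x ≤ f z ∧ f z < t := by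
  classical
  -- choose one point for every rational interval
  let P : ℚ × ℚ → X → Prop := fun pr x => x ∈ S ∧ (pr.1 : ℝ) < f x ∧ f x < pr.2
  let D1 : Set X := {x | ∃ pr : ℚ × ℚ, ∃ h : ∃ x, P pr x, x = Classical.choose h}
  have hD1 : D1.Countable := by
    have : D1 ⊆ ⋃ pr : ℚ × ℚ, {x | ∃ h : ∃ x, P pr x, x = Classical.choose h} := by
      rintro x ⟨pr, h, hx⟩
      exact Set.mem_iUnion.2 ⟨pr, h, hx⟩
    refine Set.Countable.mono this (Set.countable_iUnion fun pr => ?_)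
    apply Set.Subsingleton.countable
    rintro x ⟨h, rfl⟩ y ⟨h', rfl⟩
    rfl
  -- values isolated on the right
  let I : Set ℝ := {v | ∃ t, v < t ∧ ∀ x ∈ S, ¬ (v < f x ∧ f x < t)}
  let J : Set ℝ := (f '' S) ∩ I
  have hJ : J.Countable := by
    have : ∀ v ∈ J, ∃ t, v < t ∧ ∀ x ∈ S, ¬ (v < f x ∧ f x < t) := fun v hv => hv.2
    choose! y hy1 hy2 using this
    apply Set.PairwiseDisjoint.countable_of_Ioo (y := y) _ hy1
    intro u hu v hv huv
    have main : ∀ u ∈ J, ∀ v ∈ J, u < v → Disjoint (Ioo u (y u)) (Ioo v (y v)) := by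
      intro u hu v hv huv
      have hyu : y u ≤ v := by
        by_contra hlt
        rw [not_le] at hlt
        obtain ⟨⟨x, hx, rfl⟩, -⟩ := hv
        exact hy2 u hu x hx ⟨huv, hlt⟩
      rw [Set.disjoint_left]
      rintro w ⟨_, hw⟩ ⟨hw', _⟩
      exact absurd (hw.trans_le hyu) (not_lt.2 hw'.le)
    rcases lt_or_gt_of_ne huv with h | h
    · exact main u hu v hv h
    · exact (main v hv u hu h).symm
  let D2 : Set X := {x | ∃ v ∈ J, ∃ h : ∃ x, x ∈ S ∧ f x = v, x = Classical.choose h}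
  have hD2 : D2.Countable := by
    have : D2 ⊆ ⋃ v ∈ J, {x | ∃ h : ∃ x, x ∈ S ∧ f x = v, x = Classical.choose h} := by
      rintro x ⟨v, hv, h, hx⟩
      exact Set.mem_iUnion₂.2 ⟨v, hv, h, hx⟩
    refine Set.Countable.mono this (Set.Countable.biUnion hJ fun v _ => ?_)
    apply Set.Subsingleton.countable
    rintro x ⟨h, rfl⟩ y ⟨h', rfl⟩
    rfl
  refine ⟨D1 ∪ D2, ?_, hD1.union hD2, ?_⟩
  · rintro x (⟨pr, h, rfl⟩ | ⟨v, -, h, rfl⟩)
    · exact (Classical.choose_spec h).1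
    · exact (Classical.choose_spec h).1
  · intro x hx t ht
    by_cases hiso : ∃ x' ∈ S, f x < f x' ∧ f x' < t
    · obtain ⟨x', hx', h1, h2⟩ := hiso
      obtain ⟨p, hp1, hp2⟩ := exists_rat_btwn h1
      obtain ⟨r, hr1, hr2⟩ := exists_rat_btwn h2
      have h : ∃ x, P (p, r) x := ⟨x', hx', hp2, hr1⟩
      have hs := Classical.choose_spec h
      exact ⟨Classical.choose h, Or.inl ⟨(p, r), h, rfl⟩, (hp1.trans hs.2.1).le, hs.2.2.trans hr2⟩
    · push Not at hiso
      have hv : f x ∈ J := ⟨⟨x, hx, rfl⟩, t, ht, fun x' hx' h => absurd h.2 (not_lt.2 (hiso x' hx' h.1))⟩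
      have h : ∃ x', x' ∈ S ∧ f x' = f x := ⟨x, hx, rfl⟩
      have hs := Classical.choose_spec h
      exact ⟨Classical.choose h, Or.inr ⟨f x, hv, h, rfl⟩, hs.2.ge, hs.2.le.trans_lt ht⟩

/-! ### Main definitions -/

/-- `R` is three-function representable. -/
def ThreeRep (R : X → X → Prop) : Prop :=
  ∃ f g h : X → ℝ, ∀ x y, R x y ↔ f x < g y ∧ g y < h x

/-- An elementary forcing step between ordered pairs of elements of `X`: `(a, b) → (c, b)` or
`(b, a) → (b, c)`, when some set `R(x)` contains `a` and `c` but does not contain `b`. -/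
def Step (R : X → X → Prop) (p q : X × X) : Prop :=
  ∃ x, (R x p.1 ∧ R x q.1 ∧ ¬ R x p.2 ∧ q.2 = p.2) ∨ (R x p.2 ∧ R x q.2 ∧ ¬ R x p.1 ∧ q.1 = p.1)

/-- A reversal of length `n`: a configuration of elements `a 0, …, a n`, `b 0, …, b n` and
`x 0, …, x (n-1)` of `X` with `a 0 ≠ b 0`, `a n = b 0`, `b n = a 0` in which, for each `i < n`,
* either `b (i+1) = b i` and `R(x i)` contains `a i` and `a (i+1)` but not `b i`,
* or `a (i+1) = a i` and `R(x i)` contains `b i` and `b (i+1)` but not `a i`. -/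
def IsReversal (R : X → X → Prop) (n : ℕ) (a b x : ℕ → X) : Prop :=
  a 0 ≠ b 0 ∧ a n = b 0 ∧ b n = a 0 ∧ ∀ i < n,
    (b (i + 1) = b i ∧ R (x i) (a i) ∧ R (x i) (a (i + 1)) ∧ ¬ R (x i) (b i)) ∨
    (a (i + 1) = a i ∧ R (x i) (b i) ∧ R (x i) (b (i + 1)) ∧ ¬ R (x i) (a i))

/-- The relation `R` contains no reversal, of any finite length. -/
def NoReversal (R : X → X → Prop) : Prop :=
  ∀ (n : ℕ) (a b x : ℕ → X), ¬ IsReversal R n a b x

/-- A chain of elementary steps, written out as a sequence. -/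
theorem exists_seq {R : X → X → Prop} {p q : X × X}
    (h : Relation.ReflTransGen (Step R) p q) :
    ∃ (n : ℕ) (a b x : ℕ → X), a 0 = p.1 ∧ b 0 = p.2 ∧ a n = q.1 ∧ b n = q.2 ∧ ∀ i < n,
      (b (i + 1) = b i ∧ R (x i) (a i) ∧ R (x i) (a (i + 1)) ∧ ¬ R (x i) (b i)) ∨
      (a (i + 1) = a i ∧ R (x i) (b i) ∧ R (x i) (b (i + 1)) ∧ ¬ R (x i) (a i)) := by
  induction h with
  | refl =>
    exact ⟨0, fun _ => p.1, fun _ => p.2, fun _ => p.1, rfl, rfl, rfl, rfl,
      fun i hi => absurd hi (Nat.not_lt_zero i)⟩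
  | @tail q r _ hqr ih =>
    obtain ⟨n, a, b, x, h1, h2, h3, h4, h5⟩ := ih
    obtain ⟨x', hx'⟩ := hqr
    refine ⟨n + 1, fun i => if i ≤ n then a i else r.1, fun i => if i ≤ n then b i else r.2,
      fun i => if i < n then x i else x', ?_, ?_, ?_, ?_, ?_⟩
    · show (if 0 ≤ n then a 0 else r.1) = p.1
      rw [if_pos (Nat.zero_le n), h1]
    · show (if 0 ≤ n then b 0 else r.2) = p.2
      rw [if_pos (Nat.zero_le n), h2]
    · show (if n + 1 ≤ n then a (n + 1) else r.1) = r.1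
      rw [if_neg (Nat.not_succ_le_self n)]
    · show (if n + 1 ≤ n then b (n + 1) else r.2) = r.2
      rw [if_neg (Nat.not_succ_le_self n)]
    · intro i hi
      show ((if i + 1 ≤ n then b (i + 1) else r.2) = (if i ≤ n then b i else r.2) ∧
          R (if i < n then x i else x') (if i ≤ n then a i else r.1) ∧
          R (if i < n then x i else x') (if i + 1 ≤ n then a (i + 1) else r.1) ∧
          ¬ R (if i < n then x i else x') (if i ≤ n then b i else r.2)) ∨
        ((if i + 1 ≤ n then a (i + 1) else r.1) = (if i ≤ n then a i else r.1) ∧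
          R (if i < n then x i else x') (if i ≤ n then b i else r.2) ∧
          R (if i < n then x i else x') (if i + 1 ≤ n then b (i + 1) else r.2) ∧
          ¬ R (if i < n then x i else x') (if i ≤ n then a i else r.1))
      rcases Nat.lt_or_ge i n with hin | hin
      · rw [if_pos (show i + 1 ≤ n from hin), if_pos hin.le, if_pos hin, if_pos hin.le,
          if_pos (show i + 1 ≤ n from hin)]
        exact h5 i hin
      · have e : i = n := le_antisymm (Nat.lt_succ_iff.1 hi) hin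
        subst e
        rw [if_neg (Nat.not_succ_le_self i), if_pos (le_refl i), if_neg (lt_irrefl i),
          if_pos (le_refl i), if_neg (Nat.not_succ_le_self i), h3, h4]
        rcases hx' with ⟨c1, c2, c3, c4⟩ | ⟨c1, c2, c3, c4⟩
        · exact Or.inl ⟨c4, c1, c2, c3⟩
        · exact Or.inr ⟨c4, c1, c2, c3⟩

/-- The sequence form of the finite condition agrees with the transitive-closure form. -/
theorem noReversal_iff (R : X → X → Prop) : NoReversal R ↔
    ∀ a b, a ≠ b → ¬ Relation.ReflTransGen (Step R) (a, b) (b, a) := by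
  constructor
  · intro h a b hab hs
    obtain ⟨n, u, v, x, h1, h2, h3, h4, h5⟩ := exists_seq hs
    refine h n u v x ⟨?_, ?_, ?_, h5⟩
    · rw [h1, h2]; exact hab
    · rw [h3, h2]
    · rw [h4, h1]
  · rintro h n a b x ⟨h1, h2, h3, h4⟩
    have key : ∀ i, i ≤ n → Relation.ReflTransGen (Step R) (a 0, b 0) (a i, b i) := by
      intro i
      induction i with
      | zero => intro _; exact Relation.ReflTransGen.refl
      | succ i ih =>
        intro hi
        refine (ih (Nat.le_of_succ_le hi)).tail ⟨x i, ?_⟩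
        rcases h4 i hi with ⟨c1, c2, c3, c4⟩ | ⟨c1, c2, c3, c4⟩
        · exact Or.inl ⟨c2, c3, c4, c1⟩
        · exact Or.inr ⟨c2, c3, c4, c1⟩
    have := key n le_rfl
    rw [h2, h3] at this
    exact h _ _ h1 this

/-- There is a countable set `Z` of elements such that, whenever `x R y`, there are `z`, `z'` in
`Z` with `y ∈ R(z) ∩ R(z') ⊆ R(x)`. -/
def CountableBase (R : X → X → Prop) : Prop :=
  ∃ Z : Set X, Z.Countable ∧ ∀ x y, R x y →
    ∃ z ∈ Z, ∃ z' ∈ Z, R z y ∧ R z' y ∧ ∀ w, R z w → R z' w → R x w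

theorem noReversal_of_threeRep {R : X → X → Prop} (hR : ThreeRep R) : NoReversal R := by
  rw [noReversal_iff]
  obtain ⟨f, g, h, hR⟩ := hR
  have key : ∀ p q, Relation.ReflTransGen (Step R) p q → p = q ∨
      ((g p.1 < g p.2 ∧ g q.1 < g q.2) ∨ (g p.2 < g p.1 ∧ g q.2 < g q.1)) := by
    intro p q hpq
    induction hpq with
    | refl => exact Or.inl rfl
    | @tail q q' h1 h2 ih =>
      right
      obtain ⟨x, hx⟩ := h2
      -- the step preserves the sign
      have hs : (g q.1 < g q.2 ∧ g q'.1 < g q'.2) ∨ (g q.2 < g q.1 ∧ g q'.2 < g q'.1) := by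
        rcases hx with ⟨a1, a2, a3, a4⟩ | ⟨a1, a2, a3, a4⟩
        · rw [hR] at a1 a2 a3
          rw [a4]
          by_cases hb : f x < g q.2
          · have hb2 : h x ≤ g q.2 := by
              by_contra hlt
              exact a3 ⟨hb, not_le.1 hlt⟩
            exact Or.inl ⟨a1.2.trans_le hb2, a2.2.trans_le hb2⟩
          · rw [not_lt] at hb
            exact Or.inr ⟨hb.trans_lt a1.1, hb.trans_lt a2.1⟩
        · rw [hR] at a1 a2 a3
          rw [a4]
          by_cases hb : f x < g q.1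
          · have hb2 : h x ≤ g q.1 := by
              by_contra hlt
              exact a3 ⟨hb, not_le.1 hlt⟩
            exact Or.inr ⟨a1.2.trans_le hb2, a2.2.trans_le hb2⟩
          · rw [not_lt] at hb
            exact Or.inl ⟨hb.trans_lt a1.1, hb.trans_lt a2.1⟩
      rcases ih with rfl | ih
      · exact hs
      · rcases ih with ⟨i1, i2⟩ | ⟨i1, i2⟩
        · rcases hs with ⟨s1, s2⟩ | ⟨s1, s2⟩
          · exact Or.inl ⟨i1, s2⟩
          · exact absurd i2 (not_lt.2 s1.le)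
        · rcases hs with ⟨s1, s2⟩ | ⟨s1, s2⟩
          · exact absurd i2 (not_lt.2 s1.le)
          · exact Or.inr ⟨i1, s2⟩
  intro a b hab hpq
  rcases key _ _ hpq with h1 | ⟨h1, h2⟩ | ⟨h1, h2⟩
  · exact hab (congrArg Prod.fst h1)
  · exact absurd h1 (not_lt.2 h2.le)
  · exact absurd h1 (not_lt.2 h2.le)

theorem countableBase_of_threeRep {R : X → X → Prop} (hR : ThreeRep R) : CountableBase R := by
  obtain ⟨f, g, h, hR⟩ := hR
  let S : ℚ → Set X := fun q => {x | f x < q ∧ (q : ℝ) < h x}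
  have h1 : ∀ q : ℚ, ∃ D ⊆ S q, D.Countable ∧ ∀ x ∈ S q, ∀ t, f x < t →
      ∃ z ∈ D, f x ≤ f z ∧ f z < t := fun q => exists_countable_right (S q) f
  have h2 : ∀ q : ℚ, ∃ D ⊆ S q, D.Countable ∧ ∀ x ∈ S q, ∀ t, -h x < t →
      ∃ z ∈ D, -h x ≤ -h z ∧ -h z < t := fun q => exists_countable_right (S q) (fun x => -h x)
  choose D1 a1 b1 c1 using h1
  choose D2 a2 b2 c2 using h2
  refine ⟨(⋃ q, D1 q) ∪ (⋃ q, D2 q), (Set.countable_iUnion b1).union (Set.countable_iUnion b2), ?_⟩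
  intro x y hxy
  rw [hR] at hxy
  obtain ⟨q, hq1, hq2⟩ := exists_rat_btwn hxy.2
  obtain ⟨r, hr1, hr2⟩ := exists_rat_btwn hxy.1
  have hxq : x ∈ S q := ⟨hxy.1.trans hq1, hq2⟩
  have hxr : x ∈ S r := ⟨hr1, hr2.trans hxy.2⟩
  obtain ⟨z, hz, hz1, hz2⟩ := c1 q x hxq (g y) hxy.1
  obtain ⟨z', hz', hz1', hz2'⟩ := c2 r x hxr (-g y) (neg_lt_neg hxy.2)
  have hzS := a1 q hz
  have hzS' := a2 r hz'
  refine ⟨z, Or.inl (Set.mem_iUnion.2 ⟨q, hz⟩), z', Or.inr (Set.mem_iUnion.2 ⟨r, hz'⟩), ?_, ?_, ?_⟩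
  · rw [hR]
    exact ⟨hz2, hq1.trans hzS.2⟩
  · rw [hR]
    exact ⟨hzS'.1.trans hr2, neg_lt_neg_iff.1 hz2'⟩
  · intro w hw hw'
    rw [hR] at hw hw' ⊢
    exact ⟨hz1.trans_lt hw.1, hw'.2.trans_le (neg_le_neg_iff.1 hz1')⟩

theorem fo_iff (R : X → X → Prop) (p q : X × X) :
    Fo (Set.range (fun x => {y | R x y})) univ p q ↔ Relation.ReflTransGen (Step R) p q := by
  have e : St (Set.range (fun x => {y | R x y})) univ = Step R := by
    funext p q
    apply propext
    constructor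
    · rintro ⟨-, -, -, -, S, ⟨x, rfl⟩, h⟩
      exact ⟨x, h⟩
    · rintro ⟨x, h⟩
      exact ⟨trivial, trivial, trivial, trivial, _, ⟨x, rfl⟩, h⟩
  show Relation.ReflTransGen _ p q ↔ _
  rw [e]

theorem threeRep_of {R : X → X → Prop} (h1 : NoReversal R) (h2 : CountableBase R) :
    ThreeRep R := by
  classical
  obtain ⟨lt, ord⟩ := exists_order (Set.range (fun x => {y | R x y}))
    (fun a b hab h => (noReversal_iff R).1 h1 a b hab ((fo_iff R _ _).1 h))
  have irr : ∀ x, ¬ lt x x := fun x => ord.irrefl x trivial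
  have tr : ∀ {x y z}, lt x y → lt y z → lt x z := fun {x y z} =>
    ord.trans x trivial y trivial z trivial
  have tot : ∀ x y, x ≠ y → lt x y ∨ lt y x := fun x y => ord.total x trivial y trivial
  have asym : ∀ {x y}, lt x y → ¬ lt y x := fun {x y} h h' => irr x (tr h h')
  have conv : ∀ x {u v w}, lt u v → lt v w → R x u → R x w → R x v := fun x {u v w} a b c d =>
    ord.convex _ ⟨x, rfl⟩ u trivial v trivial w trivial a b c d
  obtain ⟨Z, hZ, hbase⟩ := h2
  -- elements below / above the set `R(x)`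
  let Lo : X → Set X := fun x => {w | ∀ u, R x u → lt w u}
  let Up : X → Set X := fun x => {w | ∀ u, R x u → lt u w}
  have dich : ∀ x w, (∃ u, R x u) → ¬ R x w → w ∈ Lo x ∨ w ∈ Up x := by
    intro x w ⟨u, hu⟩ hw
    have hne : ∀ v, R x v → v ≠ w := by
      rintro v hv rfl
      exact hw hv
    rcases tot u w (hne u hu) with h | h
    · right
      intro v hv
      rcases tot v w (hne v hv) with h' | h'
      · exact h'
      · exact absurd (conv x h h' hu hv) hw
    · left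
      intro v hv
      rcases tot v w (hne v hv) with h' | h'
      · exact absurd (conv x h' h hv hu) hw
      · exact h'
  -- initial segments
  let Sg : Set (Set X) := {s | ∃ z ∈ Z, s = Lo z ∨ s = (Up z)ᶜ} ∪ {∅}
  have hSg : Sg.Countable := by
    have : {s | ∃ z ∈ Z, s = Lo z ∨ s = (Up z)ᶜ} ⊆ (Lo '' Z) ∪ ((fun z => (Up z)ᶜ) '' Z) := by
      rintro s ⟨z, hz, rfl | rfl⟩
      · exact Or.inl ⟨z, hz, rfl⟩
      · exact Or.inr ⟨z, hz, rfl⟩
    exact (((hZ.image _).union (hZ.image _)).mono this).union (Set.countable_singleton _)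
  obtain ⟨I, hI⟩ := hSg.exists_eq_range ⟨∅, Or.inr rfl⟩
  have hIseg' : ∀ n v w, lt v w → w ∈ I n → v ∈ I n := by
    intro n v w hvw hw
    have : I n ∈ Sg := hI ▸ ⟨n, rfl⟩
    rcases this with ⟨z, -, h | h⟩ | h
    · rw [h] at hw ⊢
      intro u hu
      exact tr hvw (hw u hu)
    · rw [h] at hw ⊢
      intro hv
      exact hw (fun u hu => tr (hv u hu) hvw)
    · rw [h] at hw
      exact hw.elim
  let tm : X → ℕ → ℝ := fun w n => if w ∈ I n then 0 else (1 / 2 : ℝ) ^ n
  have htm0 : ∀ w n, 0 ≤ tm w n := by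
    intro w n
    show 0 ≤ (if w ∈ I n then (0 : ℝ) else (1 / 2 : ℝ) ^ n)
    split_ifs
    · exact le_rfl
    · positivity
  have htm1 : ∀ w n, tm w n ≤ (1 / 2 : ℝ) ^ n := by
    intro w n
    show (if w ∈ I n then (0 : ℝ) else (1 / 2 : ℝ) ^ n) ≤ (1 / 2 : ℝ) ^ n
    split_ifs
    · positivity
    · exact le_rfl
  have hsum : ∀ w, Summable (tm w) := fun w =>
    Summable.of_nonneg_of_le (htm0 w) (htm1 w) summable_geometric_two
  let g : X → ℝ := fun w => ∑' n, tm w n
  have hg0 : ∀ w, 0 ≤ g w := fun w => tsum_nonneg (htm0 w)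
  have hg2 : ∀ w, g w ≤ 2 := by
    intro w
    have := (hsum w).tsum_le_tsum (htm1 w) summable_geometric_two
    rwa [tsum_geometric_two] at this
  have hmono : ∀ v w, lt v w → g v ≤ g w := by
    intro v w hvw
    apply (hsum v).tsum_le_tsum _ (hsum w)
    intro n
    show (if v ∈ I n then (0 : ℝ) else (1 / 2 : ℝ) ^ n) ≤ (if w ∈ I n then (0 : ℝ) else (1 / 2 : ℝ) ^ n)
    by_cases hw : w ∈ I n
    · rw [if_pos hw, if_pos (hIseg' n v w hvw hw)]
    · rw [if_neg hw]
      exact htm1 v n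
  have hjump : ∀ n v w, lt v w → v ∈ I n → w ∉ I n → g v + (1 / 2 : ℝ) ^ n ≤ g w := by
    intro n v w hvw hv hw
    have hs1 : Summable (fun m => if m = n then (1 / 2 : ℝ) ^ n else 0) :=
      (hasSum_ite_eq n ((1 / 2 : ℝ) ^ n)).summable
    have e : g v + (1 / 2 : ℝ) ^ n = ∑' m, (tm v m + if m = n then (1 / 2 : ℝ) ^ n else 0) := by
      rw [(hsum v).tsum_add hs1, tsum_ite_eq]
    rw [e]
    apply ((hsum v).add hs1).tsum_le_tsum _ (hsum w)
    intro m
    by_cases hm : m = n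
    · subst hm
      have e1 : tm v m = 0 := if_pos hv
      have e2 : tm w m = (1 / 2 : ℝ) ^ m := if_neg hw
      rw [e1, e2]
      simp
    · rw [if_neg hm, add_zero]
      show (if v ∈ I m then (0 : ℝ) else (1 / 2 : ℝ) ^ m) ≤
        (if w ∈ I m then (0 : ℝ) else (1 / 2 : ℝ) ^ m)
      by_cases hw' : w ∈ I m
      · rw [if_pos hw', if_pos (hIseg' m v w hvw hw')]
      · rw [if_neg hw']
        exact htm1 v m
  -- jumps at the ends of `R(z)`, `z ∈ Z`
  have jumpLo : ∀ z ∈ Z, ∀ y, R z y → ∃ ε : ℝ, 0 < ε ∧ ∀ w ∈ Lo z, g w + ε ≤ g y := by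
    intro z hz y hy
    have : Lo z ∈ Sg := Or.inl ⟨z, hz, Or.inl rfl⟩
    rw [hI] at this
    obtain ⟨n, hn⟩ := this
    refine ⟨(1 / 2 : ℝ) ^ n, by positivity, ?_⟩
    intro w hw
    refine hjump n w y (hw y hy) (by rw [hn]; exact hw) ?_
    rw [hn]
    intro h
    exact irr y (h y hy)
  have jumpUp : ∀ z ∈ Z, ∀ y, R z y → ∃ ε : ℝ, 0 < ε ∧ ∀ w ∈ Up z, g y + ε ≤ g w := by
    intro z hz y hy
    have : (Up z)ᶜ ∈ Sg := Or.inl ⟨z, hz, Or.inr rfl⟩
    rw [hI] at this
    obtain ⟨n, hn⟩ := this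
    refine ⟨(1 / 2 : ℝ) ^ n, by positivity, ?_⟩
    intro w hw
    refine hjump n y w (hw y hy) ?_ ?_
    · rw [hn]
      intro h
      exact irr y (h y hy)
    · rw [hn]
      exact fun h => h hw
  -- uniform gaps at the ends of every `R(x)`
  have gapLo : ∀ x y, R x y → ∃ ε : ℝ, 0 < ε ∧ ∀ w ∈ Lo x, g w + ε ≤ g y := by
    intro x y hxy
    obtain ⟨z, hz, z', hz', r1, r2, r3⟩ := hbase x y hxy
    obtain ⟨e1, p1, q1⟩ := jumpLo z hz y r1
    obtain ⟨e2, p2, q2⟩ := jumpLo z' hz' y r2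
    refine ⟨min e1 e2, lt_min p1 p2, ?_⟩
    intro w hw
    have hwy : lt w y := hw y hxy
    have hwx : ¬ R x w := fun h => irr w (hw w h)
    by_cases hwz : R z w
    · have hwz' : ¬ R z' w := fun h => hwx (r3 w hwz h)
      rcases dich z' w ⟨y, r2⟩ hwz' with h | h
      · have := q2 w h
        have := min_le_right e1 e2
        linarith
      · exact absurd hwy (asym (h y r2))
    · rcases dich z w ⟨y, r1⟩ hwz with h | h
      · have := q1 w h
        have := min_le_left e1 e2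
        linarith
      · exact absurd hwy (asym (h y r1))
  have gapUp : ∀ x y, R x y → ∃ ε : ℝ, 0 < ε ∧ ∀ w ∈ Up x, g y + ε ≤ g w := by
    intro x y hxy
    obtain ⟨z, hz, z', hz', r1, r2, r3⟩ := hbase x y hxy
    obtain ⟨e1, p1, q1⟩ := jumpUp z hz y r1
    obtain ⟨e2, p2, q2⟩ := jumpUp z' hz' y r2
    refine ⟨min e1 e2, lt_min p1 p2, ?_⟩
    intro w hw
    have hwy : lt y w := hw y hxy
    have hwx : ¬ R x w := fun h => irr w (hw w h)
    by_cases hwz : R z w
    · have hwz' : ¬ R z' w := fun h => hwx (r3 w hwz h)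
      rcases dich z' w ⟨y, r2⟩ hwz' with h | h
      · exact absurd hwy (asym (h y r2))
      · have := q2 w h
        have := min_le_right e1 e2
        linarith
    · rcases dich z w ⟨y, r1⟩ hwz with h | h
      · exact absurd hwy (asym (h y r1))
      · have := q1 w h
        have := min_le_left e1 e2
        linarith
  -- the end functions
  let A : X → Set ℝ := fun x => insert (-1) (g '' Lo x)
  let B : X → Set ℝ := fun x => insert 3 (g '' Up x)
  have hA : ∀ x, BddAbove (A x) := by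
    intro x
    refine ⟨2, ?_⟩
    rintro v (rfl | ⟨w, -, rfl⟩)
    · norm_num
    · exact hg2 w
  have hB : ∀ x, BddBelow (B x) := by
    intro x
    refine ⟨0, ?_⟩
    rintro v (rfl | ⟨w, -, rfl⟩)
    · norm_num
    · exact hg0 w
  refine ⟨fun x => if ∃ u, R x u then sSup (A x) else 0, g,
    fun x => if ∃ u, R x u then sInf (B x) else 0, ?_⟩
  intro x y
  show R x y ↔ ((if ∃ u, R x u then sSup (A x) else 0) < g y ∧
    g y < (if ∃ u, R x u then sInf (B x) else 0))
  by_cases hne : ∃ u, R x u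
  · rw [if_pos hne, if_pos hne]
    constructor
    · intro hxy
      obtain ⟨e1, p1, q1⟩ := gapLo x y hxy
      obtain ⟨e2, p2, q2⟩ := gapUp x y hxy
      constructor
      · have h3 : sSup (A x) ≤ max (-1) (g y - e1) := by
          apply csSup_le ⟨-1, Set.mem_insert _ _⟩
          rintro v (rfl | ⟨w, hw, rfl⟩)
          · exact le_max_left _ _
          · refine le_trans ?_ (le_max_right _ _)
            have := q1 w hw
            linarith
        refine h3.trans_lt (max_lt ?_ ?_)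
        · have := hg0 y
          linarith
        · linarith
      · have h3 : min 3 (g y + e2) ≤ sInf (B x) := by
          apply le_csInf ⟨3, Set.mem_insert _ _⟩
          rintro v (rfl | ⟨w, hw, rfl⟩)
          · exact min_le_left _ _
          · refine le_trans (min_le_right _ _) ?_
            exact q2 w hw
        refine lt_of_lt_of_le (lt_min ?_ ?_) h3
        · have := hg2 y
          linarith
        · linarith
    · rintro ⟨i1, i2⟩
      by_contra hxy
      rcases dich x y hne hxy with h | h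
      · have : g y ≤ sSup (A x) := le_csSup (hA x) (Set.mem_insert_of_mem _ ⟨y, h, rfl⟩)
        linarith
      · have : sInf (B x) ≤ g y := csInf_le (hB x) (Set.mem_insert_of_mem _ ⟨y, h, rfl⟩)
        linarith
  · rw [if_neg hne, if_neg hne]
    constructor
    · intro hxy
      exact absurd ⟨y, hxy⟩ hne
    · rintro ⟨i1, i2⟩
      linarith

/-- **Characterization of three-function representability.** For every binary relation `R` on every
set `X`: there are `f g h : X → ℝ` with `R x y ↔ f x < g y ∧ g y < h x` if and only if `R` contains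
no reversal and has a countable base. -/
theorem result (R : X → X → Prop) : ThreeRep R ↔ NoReversal R ∧ CountableBase R :=
  ⟨fun h => ⟨noReversal_of_threeRep h, countableBase_of_threeRep h⟩,
    fun h => threeRep_of h.1 h.2⟩

end Pool.Agent.Results.MP_a721b7_an.Characterization
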